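import Pool.Agent.W928.SqFinal

set_option autoImplicit false

/-!
# `ω₁² → (ω₁·ω, 4)²` refutes the continuum hypothesis

The positive relation holds for triangles in ZFC (Erdős and Hajnal).  For `K₄` it cannot be proved in
ZFC: in ZFC, the relation implies `ℵ₁ < 2^ℵ₀`.
-/

namespace Pool.Agent.Results.MP_185924_lc.RefutesCH

/-- If `ω₁² → (ω₁·ω, 4)²` (the hypothesis is, word for word, the relation of the problem), then the
continuum hypothesis fails. -/
theorem result
    (h : ∀ c : Ordinal.{0} → Ordinal.{0} → Prop,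
      (∃ f : Ordinal.{0} → Ordinal.{0},
          StrictMonoOn f (Set.Iio ((Cardinal.aleph 1).ord * Ordinal.omega0)) ∧
          (∀ α, α < (Cardinal.aleph 1).ord * Ordinal.omega0 →
              f α < (Cardinal.aleph 1).ord * (Cardinal.aleph 1).ord) ∧
          (∀ α β, α < β → β < (Cardinal.aleph 1).ord * Ordinal.omega0 →
              c (f α) (f β))) ∨
      (∃ g : Fin 4 → Ordinal.{0},
          StrictMono g ∧
          (∀ i, g i < (Cardinal.aleph 1).ord * (Cardinal.aleph 1).ord) ∧
          (∀ i j, i < j → ¬ c (g i) (g j)))) :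
    Cardinal.aleph 1 < Cardinal.continuum.{0} := by
  by_contra hcon
  obtain ⟨c, h1, h2⟩ := Pool.Agent.W928.Sq.main (not_lt.1 hcon)
  rcases h c with h3 | h3
  · exact h1 h3
  · exact h2 h3

end Pool.Agent.Results.MP_185924_lc.RefutesCH
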